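import Mathlib

set_option autoImplicit false

namespace Pool.Agent.Results.MP_2b3d15_co.Cells

/-- The ball `B(v,r)`. -/
def ball {V : Type} (G : SimpleGraph V) (v : V) (r : ℕ) : Set V := {u | G.dist u v ≤ r}

/-- Linear growth: ball sizes are bounded by a linear function of the radius. -/
def LinearGrowth {V : Type} (G : SimpleGraph V) : Prop :=
  ∃ a b : ℝ, ∀ (v : V) (r : ℕ), ((ball G v r).ncard : ℝ) ≤ a * r + b

/-- The Voronoi cell `C(v,T)`. -/
def cell {V : Type} (G : SimpleGraph V) (v : V) (T : Finset V) : Set V :=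
  {u | ∀ w ∈ T, G.dist u v ≤ G.dist u w}

/-- `M(G) = ∞` for every infinite connected locally finite graph of non-linear growth. -/
theorem result {V : Type} [Infinite V] (G : SimpleGraph V) (hc : G.Connected)
    (hl : ∀ v, (G.neighborSet v).Finite) (hg : ¬ LinearGrowth G) (n : ℕ) :
    ∃ T : Finset V, T.Nonempty ∧ n ≤ {v | v ∈ T ∧ (cell G v T).Infinite}.ncard := by
  classical
  have _ := hl
  simp only [LinearGrowth, not_exists, not_forall, not_le] at hg
  obtain ⟨v, r, h⟩ := hg (2 * n) n
  have h' : (2 * r + 1) * n < (ball G v r).ncard := by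
    have : (((2 * r + 1) * n : ℕ) : ℝ) < (ball G v r).ncard := by push_cast; linarith
    exact_mod_cast this
  have hf : (ball G v r).Finite := Set.finite_of_ncard_pos (by omega)
  rw [Set.ncard_eq_toFinset_card _ hf] at h'
  have hb : ∀ z, ∀ t ∈ hf.toFinset, G.dist z t + r - G.dist z v < 2 * r + 1 ∧
      G.dist z v ≤ G.dist z t + r := by
    intro z t ht
    have h0 : G.dist t v ≤ r := hf.mem_toFinset.1 ht
    have h1 := hc.dist_triangle (u := z) (v := v) (w := t)
    have h2 := hc.dist_triangle (u := z) (v := t) (w := v)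
    rw [G.dist_comm (u := v)] at h1
    omega
  let φ : V → hf.toFinset → Fin (2 * r + 1) := fun z t =>
    ⟨G.dist z t + r - G.dist z v, (hb z t t.2).1⟩
  obtain ⟨y, hy⟩ := Finite.exists_infinite_fiber φ
  obtain ⟨c, -, hcard⟩ := Finset.exists_lt_card_fiber_of_mul_lt_card_of_maps_to
    (s := Finset.univ) (t := Finset.univ) (f := y) (n := n) (fun _ _ => Finset.mem_univ _)
    (by simpa using h')
  let T : Finset V := (Finset.univ.filter fun x => y x = c).map (Function.Embedding.subtype _)
  have hT : n < T.card := by simpa [T] using hcard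
  refine ⟨T, Finset.card_pos.1 (by omega), ?_⟩
  have : {v | v ∈ T ∧ (cell G v T).Infinite} = ↑T := by
    ext t
    refine ⟨fun h => h.1, fun ht => ⟨ht, (Set.infinite_coe_iff.1 hy).mono fun z hz w hw => ?_⟩⟩
    obtain ⟨t, ht', rfl⟩ := Finset.mem_map.1 ht
    obtain ⟨w, hw', rfl⟩ := Finset.mem_map.1 hw
    have e : φ z t = φ z w := by
      rw [show φ z = y from hz, (Finset.mem_filter.1 ht').2, (Finset.mem_filter.1 hw').2]
    have e' : G.dist z t + r - G.dist z v = G.dist z w + r - G.dist z v := congrArg Fin.val e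
    have h1 := (hb z t t.2).2
    have h2 := (hb z w w.2).2
    change G.dist z t ≤ G.dist z w
    omega
  rw [this, Set.ncard_coe_finset]
  omega

end Pool.Agent.Results.MP_2b3d15_co.Cells
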